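import Pool.Agent.Helper17.SL.GoalsA

/-!
# Project SL: packet GA3 (injectivity of the archimedean logarithms on `E ⊗ U`)
-/

namespace Pool.Agent.Helper17.SL.PkGA3

open Pool.Agent.Helper51.SigLeo Pool.Agent.Helper51.SixExp NumberField Module TensorProduct
  NumberField.Units NumberField.Units.dirichletUnitTheorem

universe u v

variable {H : Type u} [Field H] [NumberField H] {E : Type v} [Field E]

omit [NumberField H] in
/-- Torsion is killed in `E ⊗ U`. -/
theorem tmul_torsion [CharZero E] (e : E) (u : (𝓞 H)ˣ) (hu : u ∈ torsion H) :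
    e ⊗ₜ[ℤ] (Additive.ofMul u) = 0 := by
  have hu' : IsOfFinOrder u := hu
  obtain ⟨n, hn, hun⟩ := isOfFinOrder_iff_pow_eq_one.mp hu'
  have hn' : (n : E) ≠ 0 := by exact_mod_cast hn.ne'
  have h1 : e = (n : ℤ) • (e / n) := by
    rw [zsmul_eq_mul]
    push_cast
    field_simp
  have h2 : (n : ℤ) • (Additive.ofMul u) = 0 := by
    rw [← ofMul_zpow, zpow_natCast, hun, ofMul_one]
  rw [h1, TensorProduct.smul_tmul, h2, TensorProduct.tmul_zero]

/-- Every element of `E ⊗ U` is a combination of fundamental units. -/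
theorem exists_repr [CharZero E] (x : E ⊗[ℤ] Additive (𝓞 H)ˣ) :
    ∃ e : Fin (rank H) → E, x = ∑ i, e i ⊗ₜ[ℤ] Additive.ofMul (fundSystem H i) := by
  induction x using TensorProduct.induction_on with
  | zero => exact ⟨0, by simp⟩
  | tmul a m =>
    obtain ⟨⟨ζ, f⟩, hζ, -⟩ := exist_unique_eq_mul_prod H m.toMul
    refine ⟨fun i ↦ f i • a, ?_⟩
    have hm : m = Additive.ofMul ((ζ : (𝓞 H)ˣ) * ∏ i, fundSystem H i ^ f i) := by
      rw [← hζ]; rfl
    rw [hm, ofMul_mul, TensorProduct.tmul_add, tmul_torsion a _ ζ.2, zero_add, ofMul_prod,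
      TensorProduct.tmul_sum]
    refine Finset.sum_congr rfl fun i _ ↦ ?_
    rw [ofMul_zpow, TensorProduct.smul_tmul]
  | add x y hx hy =>
    obtain ⟨e, he⟩ := hx
    obtain ⟨f, hf⟩ := hy
    refine ⟨fun i ↦ e i + f i, ?_⟩
    rw [he, hf, ← Finset.sum_add_distrib]
    refine Finset.sum_congr rfl fun i _ ↦ ?_
    rw [TensorProduct.add_tmul]

/-- A real relation between the logarithms of the fundamental units is trivial. -/
theorem real_indep (c : Fin (rank H) → ℝ)
    (h : ∀ w : InfinitePlace H, ∑ i, c i * Real.log (w (fundSystem H i : H)) = 0) : c = 0 := by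
  classical
  have hli : LinearIndependent ℝ
      (fun i ↦ logEmbedding H (Additive.ofMul (fundSystem H i))) := isMaxRank_fundSystem H
  rw [Fintype.linearIndependent_iff] at hli
  funext i
  refine hli c ?_ i
  funext w
  rw [Finset.sum_apply]
  have h1 : ∀ i, (c i • logEmbedding H (Additive.ofMul (fundSystem H i))) w =
      (w.1.mult : ℝ) * (c i * Real.log (w.1 (fundSystem H i : H))) := by
    intro i
    rw [Pi.smul_apply, logEmbedding_component, smul_eq_mul]
    ring
  rw [Finset.sum_congr rfl fun i _ ↦ h1 i, ← Finset.mul_sum, h w.1, mul_zero]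
  rfl

theorem thm : S_GA3.{u, v} := by
  intro H _ _ E _ ε x hx
  have : CharZero E := ε.charZero
  obtain ⟨e, he⟩ := exists_repr x
  have hrel : ∀ w : InfinitePlace H,
      ∑ i, ε (e i) * ((Real.log (w (fundSystem H i : H)) : ℝ) : ℂ) = 0 := by
    intro w
    have h1 := hx w.embedding
    rw [he, map_sum] at h1
    rw [← h1]
    refine Finset.sum_congr rfl fun i _ ↦ ?_
    rw [Phi_tmul, smul_eq_mul]
    congr 1
    show _ = ((Real.log ‖w.embedding ((fundSystem H i : (𝓞 H)ˣ) : H)‖ : ℝ) : ℂ)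
    rw [InfinitePlace.norm_embedding_eq]
  have hre : (fun i ↦ (ε (e i)).re) = 0 := by
    refine real_indep _ fun w ↦ ?_
    have h2 := congrArg Complex.re (hrel w)
    rw [Complex.re_sum, Complex.zero_re] at h2
    rw [← h2]
    refine Finset.sum_congr rfl fun i _ ↦ ?_
    rw [Complex.re_mul_ofReal]
  have him : (fun i ↦ (ε (e i)).im) = 0 := by
    refine real_indep _ fun w ↦ ?_
    have h2 := congrArg Complex.im (hrel w)
    rw [Complex.im_sum, Complex.zero_im] at h2
    rw [← h2]
    refine Finset.sum_congr rfl fun i _ ↦ ?_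
    rw [Complex.im_mul_ofReal]
  rw [he]
  refine Finset.sum_eq_zero fun i _ ↦ ?_
  have h0 : ε (e i) = 0 := Complex.ext (congrFun hre i) (congrFun him i)
  rw [(map_eq_zero ε).mp h0, TensorProduct.zero_tmul]

end Pool.Agent.Helper17.SL.PkGA3
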